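import Pool.Agent.H34.Cw

namespace Pool.Agent.Results.MP_41df87_co.SpiralRing

open Finset Pool.Agent.H34.CwDefs Pool.Agent.H34.Cw

section defs
variable {V : Type} {k : ℕ}

/-- The parts `A_i = p⁻¹(i)` and `A_j` are uniform to each other. -/
def Uniform (G : SimpleGraph V) (p : V → Fin k) (i j : Fin k) : Prop :=
  (∀ u v, p u = i → p v = j → G.Adj u v) ∨ (∀ u v, p u = i → p v = j → ¬ G.Adj u v)

/-- The box graph. -/
def box (G : SimpleGraph V) (p : V → Fin k) : SimpleGraph (Fin k) where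
  Adj i j := i ≠ j ∧ ¬ Uniform G p i j
  symm := ⟨fun _ _ h => ⟨h.1.symm, fun h' => h.2 (h'.imp
    (fun a u v hu hv => (a v u hv hu).symm) (fun a u v hu hv e => a v u hv hu e.symm))⟩⟩
  loopless := ⟨fun _ h => h.1 rfl⟩

/-- `p` gives a monotone partition of `V` into `k` nonempty cliques whose box graph is a cycle on
its `k` vertices. -/
structure CycPart (G : SimpleGraph V) (p : V → Fin k) : Prop where
  nonempty : Function.Surjective p
  clique : ∀ u v, u ≠ v → p u = p v → G.Adj u v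
  monotone : ∀ u v, p u = p v →
    (∀ w, p w ≠ p u → G.Adj u w → G.Adj v w) ∨ (∀ w, p w ≠ p u → G.Adj v w → G.Adj u w)
  three : 3 ≤ k
  cycle : Nonempty (box G p ≃g SimpleGraph.cycleGraph k)
end defs

def R (m : ℕ) (i j : Fin 4) (a b : ℕ) : Prop :=
  (i = 0 ∧ j = 1 ∧ b ≤ a) ∨ (i = 2 ∧ j = 1 ∧ b ≤ a) ∨ (i = 2 ∧ j = 3 ∧ b ≤ a) ∨
    (i = 0 ∧ j = 3 ∧ b + m ≤ a)

def Sp (m : ℕ) : SimpleGraph (Fin 4 × Fin (m * m)) where
  Adj u v := (u.1 = v.1 ∧ u ≠ v) ∨ R m u.1 v.1 u.2 v.2 ∨ R m v.1 u.1 v.2 u.2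
  symm := ⟨fun u v h => by
    rcases h with h | h | h
    · exact Or.inl ⟨h.1.symm, h.2.symm⟩
    · exact Or.inr (Or.inr h)
    · exact Or.inr (Or.inl h)⟩
  loopless := ⟨fun u h => by
    rcases h with h | h | h
    · exact h.2 rfl
    all_goals (unfold R at h; omega)⟩

theorem grid (m c : ℕ) (y : ℕ → Prop) [DecidablePred y] (Hs Vs : Finset ℕ) (h1 : Hs.card ≤ 4 * c)
    (h2 : Vs.card < m) (g1 : ∀ t, t + 1 < m * m → t ∉ Hs → (y t ↔ y (t + 1)))
    (g2 : ∀ t, t + m < m * m → t ∉ Vs → (y t ↔ y (t + m))) :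
    ({t ∈ range (m * m) | y t} : Finset ℕ).card ≤ 4 * c * m ∨
      ({t ∈ range (m * m) | ¬ y t} : Finset ℕ).card ≤ 4 * c * m := by
  obtain ⟨col, hc1, hc2⟩ := exists_mem_notMem_of_card_lt_card
    (s := Vs.image (· % m)) (t := range m) (by simpa using card_image_le.trans_lt h2)
  have hc := mem_range.1 hc1
  have a1 : ∀ r, r < m → (y (col + r * m) ↔ y col) := by
    intro r
    induction r with
    | zero => simp
    | succ r ih =>
      intro hr
      rw [← ih (by omega), show col + (r + 1) * m = col + r * m + m by ring]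
      refine (g2 _ (by nlinarith) fun h => hc2 (mem_image.2 ⟨_, h, ?_⟩)).symm
      simp [Nat.mod_eq_of_lt hc]
  have a2 : ∀ r, r < m → r ∉ Hs.image (· / m) → ∀ j, j < m → (y (j + r * m) ↔ y (r * m)) := by
    intro r hr hn j
    induction j with
    | zero => simp
    | succ j ih =>
      intro hj
      rw [← ih (by omega), show j + 1 + r * m = j + r * m + 1 by ring]
      refine (g1 _ (by nlinarith) fun h => hn (mem_image.2 ⟨_, h, ?_⟩)).symm
      rw [Nat.add_mul_div_right _ _ (by omega), Nat.div_eq_of_lt (by omega), zero_add]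
  have a3 : ({t ∈ range (m * m) | ¬ (y t ↔ y col)} : Finset ℕ).card ≤ 4 * c * m := by
    calc _ ≤ ((Hs.image (· / m)).biUnion fun r => (range m).image fun j => j + r * m).card := by
          refine card_le_card fun t ht => ?_
          simp only [mem_filter, mem_range] at ht
          have e : t % m + t / m * m = t := by rw [mul_comm]; exact Nat.mod_add_div t m
          have l1 : t % m < m := Nat.mod_lt _ (by omega)
          have l2 : t / m < m := Nat.div_lt_of_lt_mul ht.1
          refine mem_biUnion.2 ⟨t / m, ?_, mem_image.2 ⟨t % m, mem_range.2 l1, e⟩⟩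
          by_contra hn
          apply ht.2
          rw [← a1 _ l2, a2 _ l2 hn _ hc, ← a2 _ l2 hn _ l1, e]
      _ ≤ (Hs.image (· / m)).card * m :=
          card_biUnion_le_card_mul _ _ _ fun r _ => card_image_le.trans (by simp)
      _ ≤ _ := Nat.mul_le_mul_right _ (card_image_le.trans h1)
  by_cases hy : y col
  · right; simpa [hy] using a3
  · left; simpa [hy] using a3

theorem lower (m c : ℕ) (hm : 3 ≤ m) (h : CwLE (Sp m) c) : m ≤ 12 * c := by
  classical
  have n0 : 9 ≤ m * m := by nlinarith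
  rcases h with h | ⟨ℓ, h⟩
  · exact (h.false (0, ⟨0, by omega⟩)).elim
  let v : Fin 4 → ℕ → Fin 4 × Fin (m * m) := fun i j => (i, ⟨min j (m * m - 1), by omega⟩)
  have cnt : ∀ X : Finset (Fin 4 × Fin (m * m)),
      (X ∩ (range (m * m)).image (v 0)).card = ({t ∈ range (m * m) | v 0 t ∈ X} : Finset ℕ).card := by
    intro X
    symm
    refine card_bij (fun t _ => v 0 t) ?_ ?_ ?_
    · intro t ht
      simp only [mem_filter] at ht
      exact mem_inter.2 ⟨ht.2, mem_image_of_mem _ ht.1⟩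
    · intro a ha b hb e
      simp only [mem_filter, mem_range] at ha hb
      simp only [v, Prod.mk.injEq, true_and, Fin.mk.injEq] at e
      omega
    · intro w hw
      obtain ⟨t, ht, rfl⟩ := mem_image.1 (mem_inter.1 hw).2
      exact ⟨t, mem_filter.2 ⟨ht, (mem_inter.1 hw).1⟩, rfl⟩
  obtain ⟨X, col, -, x2, x3, x4⟩ := (Built.sep (W := (range (m * m)).image (v 0)) (m := m * m / 3)
    (by omega) h).2 (by rw [cnt]; simp; omega)
  rw [cnt] at x2 x3
  have x5 : ∀ u ∈ (X : Set _), ∀ w ∈ (X : Set _), col u = col w → ∀ z ∉ (X : Set _),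
      ((Sp m).Adj u z ↔ (Sp m).Adj w z) := fun u hu w hw hc => (x4 u hu w hw hc).2
  have half : ∀ (I : Finset ℕ) (f g : ℕ → Fin 4 × Fin (m * m)),
      (∀ t ∈ I, ∀ t' ∈ I, t < t' → ¬ ((Sp m).Adj (f t) (g t) ↔ (Sp m).Adj (f t') (g t)) ∨
        ¬ ((Sp m).Adj (f t) (g t') ↔ (Sp m).Adj (f t') (g t'))) →
      ({t ∈ I | f t ∈ X ∧ g t ∉ X} : Finset ℕ).card ≤ c := by
    intro I f g hfg
    by_contra hc
    refine pigeon x5 _ (not_le.1 hc) f (fun t ht => (mem_filter.1 ht).2.1) fun s hs t ht hst => ?_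
    rw [mem_filter] at hs ht
    rcases lt_or_gt_of_ne hst with l | l
    · rcases hfg s hs.1 t ht.1 l with a | a
      · exact ⟨_, hs.2.2, a⟩
      · exact ⟨_, ht.2.2, a⟩
    · rcases hfg t ht.1 s hs.1 l with a | a
      · exact ⟨_, ht.2.2, fun e => a e.symm⟩
      · exact ⟨_, hs.2.2, fun e => a e.symm⟩
  have diff : ∀ (i j : Fin 4) (s α β L : ℕ), i ≠ j → (∀ a b, R m i j a b ↔ b + s ≤ a) →
      (∀ a b, ¬ R m j i a b) → (α = β + s ∨ α + 1 = β + s) → L + α ≤ m * m → L + β ≤ m * m →
      ({t ∈ range L | ¬ (v i (t + α) ∈ X ↔ v j (t + β) ∈ X)} : Finset ℕ).card ≤ 2 * c := by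
    intro i j s α β L hij r1 r2 hs l1 l2
    have adj : ∀ a b, (Sp m).Adj (v i a) (v j b) ↔ min b (m * m - 1) + s ≤ min a (m * m - 1) := by
      intro a b
      simp [Sp, v, hij, r1, r2]
    have p1 := half (range L) (fun t => v i (t + α)) (fun t => v j (t + β)) (by
      intro t ht t' ht' l
      simp only [mem_range] at ht ht'
      simp only [adj]
      omega)
    have p2 := half (range L) (fun t => v j (t + β)) (fun t => v i (t + α)) (by
      intro t ht t' ht' l
      simp only [mem_range] at ht ht'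
      simp only [(Sp m).adj_comm (v j _), adj]
      omega)
    refine le_trans (card_le_card ?_) ((card_union_le _ _).trans
      ((Nat.add_le_add p1 p2).trans (by omega)))
    intro t ht
    simp only [mem_filter, mem_union] at ht ⊢
    tauto
  have r01 : ∀ a b, R m 0 1 a b ↔ b + 0 ≤ a := by intro a b; simp [R]
  have r21 : ∀ a b, R m 2 1 a b ↔ b + 0 ≤ a := by intro a b; simp [R]
  have r23 : ∀ a b, R m 2 3 a b ↔ b + 0 ≤ a := by intro a b; simp [R]
  have r03 : ∀ a b, R m 0 3 a b ↔ b + m ≤ a := by intro a b; simp [R]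
  have mm : m ≤ m * m := by nlinarith
  have d1 := diff 0 1 0 0 1 (m * m - 1) (by decide) r01 (by simp [R]) (by omega) (by omega) (by omega)
  have d2 := diff 0 1 0 1 1 (m * m - 1) (by decide) r01 (by simp [R]) (by omega) (by omega) (by omega)
  have d3 := diff 0 1 0 0 0 (m * m - m) (by decide) r01 (by simp [R]) (by omega) (by omega) (by omega)
  have d4 := diff 2 1 0 0 0 (m * m - m) (by decide) r21 (by simp [R]) (by omega) (by omega) (by omega)
  have d5 := diff 2 3 0 0 0 (m * m - m) (by decide) r23 (by simp [R]) (by omega) (by omega) (by omega)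
  have d6 := diff 0 3 m m 0 (m * m - m) (by decide) r03 (by simp [R]) (by omega) (by omega) (by omega)
  by_contra hc
  have := grid m c (fun t => v 0 t ∈ X) _ _
    ((card_union_le _ _).trans ((Nat.add_le_add d1 d2).trans (by omega)))
    (lt_of_le_of_lt ((card_union_le _ _).trans (Nat.add_le_add ((card_union_le _ _).trans
      (Nat.add_le_add d3 d4)) ((card_union_le _ _).trans (Nat.add_le_add d5 d6)))) (by omega))
    (by
      intro t ht hn
      have : t ∈ range (m * m - 1) := mem_range.2 (by omega)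
      simp only [mem_union, mem_filter, this, true_and, add_zero] at hn
      tauto)
    (by
      intro t ht hn
      have : t ∈ range (m * m - m) := mem_range.2 (by omega)
      simp only [mem_union, mem_filter, this, true_and, add_zero] at hn
      tauto)
  have s := card_filter_add_card_filter_not (s := range (m * m)) fun t => v 0 t ∈ X
  rw [card_range] at s
  have : (12 * c + 1) * m ≤ m * m := Nat.mul_le_mul_right _ (by omega)
  have e : (12 * c + 1) * m = 3 * (4 * c * m) + m := by ring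
  omega

theorem part (m : ℕ) (hm : 3 ≤ m) : CycPart (Sp m) Prod.fst := by
  have n0 : m < m * m := by nlinarith
  refine ⟨fun i => ⟨(i, ⟨0, by omega⟩), rfl⟩, fun u v h1 h2 => Or.inl ⟨h2, h1⟩, ?_, by norm_num, ?_⟩
  · rintro ⟨i, a⟩ ⟨j, b⟩ h
    simp only at h
    subst h
    have key : ∀ a b : Fin (m * m), (i = 0 ∨ i = 2 → a ≤ b) → (i = 1 ∨ i = 3 → b ≤ a) →
        ∀ w : Fin 4 × Fin (m * m), w.1 ≠ i → (Sp m).Adj (i, a) w → (Sp m).Adj (i, b) w := by
      intro a b h1 h2 w hw h
      have k1 : ∀ j x, R m i j a x → R m i j b x := by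
        rintro j x (g | g | g | g)
        · exact Or.inl ⟨g.1, g.2.1, g.2.2.trans (h1 (Or.inl g.1))⟩
        · exact Or.inr (Or.inl ⟨g.1, g.2.1, g.2.2.trans (h1 (Or.inr g.1))⟩)
        · exact Or.inr (Or.inr (Or.inl ⟨g.1, g.2.1, g.2.2.trans (h1 (Or.inr g.1))⟩))
        · exact Or.inr (Or.inr (Or.inr ⟨g.1, g.2.1, g.2.2.trans (h1 (Or.inl g.1))⟩))
      have k2 : ∀ j x, R m j i x a → R m j i x b := by
        rintro j x (g | g | g | g)
        · exact Or.inl ⟨g.1, g.2.1, le_trans (h2 (Or.inl g.2.1)) g.2.2⟩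
        · exact Or.inr (Or.inl ⟨g.1, g.2.1, le_trans (h2 (Or.inl g.2.1)) g.2.2⟩)
        · exact Or.inr (Or.inr (Or.inl ⟨g.1, g.2.1, le_trans (h2 (Or.inr g.2.1)) g.2.2⟩))
        · exact Or.inr (Or.inr (Or.inr ⟨g.1, g.2.1,
            le_trans (Nat.add_le_add_right (h2 (Or.inr g.2.1)) m) g.2.2⟩))
      rcases h with h | h | h
      · exact absurd h.1.symm hw
      · exact Or.inr (Or.inl (k1 _ _ h))
      · exact Or.inr (Or.inr (k2 _ _ h))
    have hi : i = 0 ∨ i = 1 ∨ i = 2 ∨ i = 3 := by omega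
    rcases le_total a b with l | l <;> rcases hi with hi | hi | hi | hi <;>
      first
      | exact Or.inl (key a b (fun _ => l) (by omega))
      | exact Or.inr (key b a (by omega) (fun _ => l))
      | exact Or.inr (key b a (fun _ => l) (by omega))
      | exact Or.inl (key a b (by omega) (fun _ => l))
  · have nu : ∀ i j : Fin 4, i ≠ j → R m i j (m * m - 1) 0 → ¬ R m i j 0 (m * m - 1) →
        ¬ R m j i (m * m - 1) 0 → (box (Sp m) Prod.fst).Adj i j := by
      intro i j hij h1 h2 h3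
      refine ⟨hij, ?_⟩
      rintro (h | h)
      · have := h (i, ⟨0, by omega⟩) (j, ⟨m * m - 1, by omega⟩) rfl rfl
        simp only [Sp] at this
        tauto
      · exact h (i, ⟨m * m - 1, by omega⟩) (j, ⟨0, by omega⟩) rfl rfl (Or.inr (Or.inl h1))
    have un : ∀ i j : Fin 4, (∀ a b, ¬ R m i j a b) → (∀ a b, ¬ R m j i a b) →
        ¬ (box (Sp m) Prod.fst).Adj i j := by
      intro i j h1 h2 h
      refine h.2 (Or.inr ?_)
      rintro ⟨i', a⟩ ⟨j', b⟩ rfl rfl (g | g | g)
      · exact h.1 g.1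
      · exact h1 _ _ g
      · exact h2 _ _ g
    have e01 := nu 0 1 (by decide) (by simp [R]) (by simp [R]; omega) (by simp [R])
    have e21 := nu 2 1 (by decide) (by simp [R]) (by simp [R]; omega) (by simp [R])
    have e23 := nu 2 3 (by decide) (by simp [R]) (by simp [R]; omega) (by simp [R])
    have e03 := nu 0 3 (by decide) (by simp [R]; omega) (by simp [R]; omega) (by simp [R])
    have e02 := un 0 2 (by simp [R]) (by simp [R])
    have e13 := un 1 3 (by simp [R]) (by simp [R])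
    have e20 := un 2 0 (by simp [R]) (by simp [R])
    have e31 := un 3 1 (by simp [R]) (by simp [R])
    refine ⟨⟨Equiv.refl _, ?_⟩⟩
    intro i j
    fin_cases i <;> fin_cases j <;>
      simp [e01, e21, e23, e03, e01.symm, e21.symm, e23.symm, e03.symm, e02, e13, e20, e31] <;> decide

theorem result :
    (∀ m : ℕ, 3 ≤ m → ∃ (G : SimpleGraph (Fin 4 × Fin (m * m))) (p : Fin 4 × Fin (m * m) → Fin 4),
      CycPart G p ∧ ∀ c, CwLE G c → m ≤ 12 * c) ∧
    ¬ ∃ g : ℕ → ℝ, ∀ (V : Type) [Fintype V] [DecidableEq V] (G : SimpleGraph V) (k : ℕ)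
      (p : V → Fin k), CycPart G p →
        ∃ c : ℕ, CwLE G c ∧ (c : ℝ) ≤ g k * Real.log (Fintype.card V) := by
  refine ⟨fun m hm => ⟨Sp m, Prod.fst, part m hm, fun c => lower m c hm⟩, ?_⟩
  rintro ⟨g, hg⟩
  obtain ⟨t, ht⟩ := exists_nat_gt (96 * |g 4| + 3)
  have a0 := abs_nonneg (g 4)
  have t3 : 3 ≤ t := by exact_mod_cast (show (3 : ℝ) ≤ t by linarith)
  have hm : 3 ≤ t * t := by nlinarith
  obtain ⟨c, h1, h2⟩ := hg _ (Sp (t * t)) 4 Prod.fst (part _ hm)
  have h3 : ((t * t : ℕ) : ℝ) ≤ 12 * c := by exact_mod_cast lower _ c hm h1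
  have t0 : (0 : ℝ) < t := by linarith
  have h4 : Real.log (Fintype.card (Fin 4 × Fin (t * t * (t * t)))) ≤ 8 * t := by
    have e : (Fintype.card (Fin 4 × Fin (t * t * (t * t))) : ℝ) = 4 * t ^ 4 := by simp; ring
    rw [e, Real.log_mul (by norm_num) (by positivity), Real.log_pow]
    have := Real.log_le_sub_one_of_pos t0
    have := Real.log_le_sub_one_of_pos (show (0 : ℝ) < 4 by norm_num)
    push_cast
    linarith
  have h5 : 0 ≤ Real.log (Fintype.card (Fin 4 × Fin (t * t * (t * t)))) := Real.log_natCast_nonneg _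
  have h6 := mul_le_mul_of_nonneg_right (le_abs_self (g 4)) h5
  have h7 := mul_le_mul_of_nonneg_left h4 a0
  push_cast at h3
  nlinarith

end Pool.Agent.Results.MP_41df87_co.SpiralRing
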